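import Mathlib

/-!
The Baumslag-Solitar group `BS(1,2)`: the affine representation, normal form, residual finiteness.
-/

set_option autoImplicit false

namespace Pool.Agent.H395R6

/-- affine maps `y ↦ 2 ^ m y + x` -/
@[ext] structure Aff where
  x : ℚ
  m : ℤ

namespace Aff

instance : Mul Aff := ⟨fun g h => ⟨g.x + 2 ^ g.m * h.x, g.m + h.m⟩⟩
instance : One Aff := ⟨⟨0, 0⟩⟩
instance : Inv Aff := ⟨fun g => ⟨-(2 ^ (-g.m) * g.x), -g.m⟩⟩

@[simp] theorem mul_x (g h : Aff) : (g * h).x = g.x + 2 ^ g.m * h.x := rfl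
@[simp] theorem mul_m (g h : Aff) : (g * h).m = g.m + h.m := rfl
@[simp] theorem one_x : (1 : Aff).x = 0 := rfl
@[simp] theorem one_m : (1 : Aff).m = 0 := rfl
@[simp] theorem inv_x (g : Aff) : (g⁻¹).x = -(2 ^ (-g.m) * g.x) := rfl
@[simp] theorem inv_m (g : Aff) : (g⁻¹).m = -g.m := rfl

instance : Group Aff := Group.ofLeftAxioms
  (by
    intro a b c
    ext
    · simp only [mul_x, mul_m]
      rw [zpow_add₀ (by norm_num)]
      ring
    · simp only [mul_m]; ring)
  (by
    intro a
    ext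
    · simp
    · simp)
  (by
    intro a
    ext
    · simp
    · simp)

end Aff

/-- the relator `t a t⁻¹ a⁻²` of `BS(1,2)`; `a` is generator `0` and `t` is generator `1` -/
def rel : FreeGroup (Fin 2) :=
  FreeGroup.of 1 * FreeGroup.of 0 * (FreeGroup.of 1)⁻¹ * (FreeGroup.of 0)⁻¹ * (FreeGroup.of 0)⁻¹

/-- the Baumslag-Solitar group `BS(1,2)` -/
abbrev G : Type := PresentedGroup ({rel} : Set (FreeGroup (Fin 2)))

def ga : G := PresentedGroup.of 0
def gt : G := PresentedGroup.of 1

theorem rel_eq : gt * ga * gt⁻¹ = ga * ga := by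
  have h : (PresentedGroup.mk ({rel} : Set (FreeGroup (Fin 2)))) rel = 1 :=
    PresentedGroup.one_of_mem (Set.mem_singleton _)
  have e : gt * ga * gt⁻¹ * ga⁻¹ * ga⁻¹ = 1 := h
  have : gt * ga * gt⁻¹ = (gt * ga * gt⁻¹ * ga⁻¹ * ga⁻¹) * (ga * ga) := by group
  rw [this, e, one_mul]

/-- a homomorphism out of `BS(1,2)` -/
def lft {H : Type*} [Group H] (a t : H) (h : t * a * t⁻¹ = a * a) : G →* H :=
  PresentedGroup.toGroup (f := fun i : Fin 2 => if i = 0 then a else t) (by
    intro r hr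
    rw [Set.mem_singleton_iff] at hr
    subst hr
    simp only [rel, map_mul, map_inv, FreeGroup.lift_apply_of]
    simp [h])

theorem lft_ga {H : Type*} [Group H] (a t : H) (h : t * a * t⁻¹ = a * a) : lft a t h ga = a := by
  unfold lft ga
  rw [PresentedGroup.toGroup.of]
  simp

theorem lft_gt {H : Type*} [Group H] (a t : H) (h : t * a * t⁻¹ = a * a) : lft a t h gt = t := by
  unfold lft gt
  rw [PresentedGroup.toGroup.of]
  simp

/-- the affine representation -/
def rho : G →* Aff := lft ⟨1, 0⟩ ⟨0, 1⟩ (by ext <;> simp; norm_num)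

@[simp] theorem rho_ga : rho ga = ⟨1, 0⟩ := lft_ga _ _ _
@[simp] theorem rho_gt : rho gt = ⟨0, 1⟩ := lft_gt _ _ _

theorem conj_pow (i : ℕ) (l : ℤ) : gt ^ i * ga ^ l = ga ^ (2 ^ i * l) * gt ^ i := by
  induction i generalizing l with
  | zero => simp
  | succ i ih =>
    have h1 : gt * ga ^ l = ga ^ (2 * l) * gt := by
      have : gt * ga ^ l * gt⁻¹ = ga ^ (2 * l) := by
        rw [← conj_zpow, rel_eq, two_mul, zpow_add]
        have : ga * ga = ga ^ (2 : ℤ) := by rw [zpow_two]
        rw [this, ← zpow_mul, ← zpow_add]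
        congr 1
        ring
      rw [← this]; group
    rw [pow_succ, mul_assoc, h1, ← mul_assoc, ih, mul_assoc, ← pow_succ]
    congr 2
    rw [pow_succ]; ring

theorem ga_eq (i : ℕ) (l : ℤ) : ga ^ l = (gt ^ i)⁻¹ * ga ^ (2 ^ i * l) * gt ^ i := by
  rw [mul_assoc, ← conj_pow]
  group

/-- normal form -/
theorem normal_form (g : G) : ∃ (i j : ℕ) (l : ℤ), g = (gt ^ i)⁻¹ * ga ^ l * gt ^ j := by
  have key : ∀ L : List (Fin 2 × Bool), ∃ (i j : ℕ) (l : ℤ),
      (PresentedGroup.mk ({rel} : Set (FreeGroup (Fin 2)))) (FreeGroup.mk L) =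
        (gt ^ i)⁻¹ * ga ^ l * gt ^ j := by
    intro L
    induction L with
    | nil => exact ⟨0, 0, 0, by simp; rfl⟩
    | cons z L ih =>
      obtain ⟨i, j, l, h⟩ := ih
      obtain ⟨c, b⟩ := z
      have e : (FreeGroup.mk ((c, b) :: L)) = FreeGroup.mk [(c, b)] * FreeGroup.mk L := by
        rw [FreeGroup.mul_mk]; rfl
      rw [e, map_mul, h]
      have hga : (PresentedGroup.mk ({rel} : Set (FreeGroup (Fin 2)))) (FreeGroup.mk [(0, true)])
        = ga := rfl
      have hgt : (PresentedGroup.mk ({rel} : Set (FreeGroup (Fin 2)))) (FreeGroup.mk [(1, true)])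
        = gt := rfl
      have hga' : (PresentedGroup.mk ({rel} : Set (FreeGroup (Fin 2)))) (FreeGroup.mk [(0, false)])
        = ga⁻¹ := rfl
      have hgt' : (PresentedGroup.mk ({rel} : Set (FreeGroup (Fin 2)))) (FreeGroup.mk [(1, false)])
        = gt⁻¹ := rfl
      fin_cases c
      · rcases b with _ | _
        · refine ⟨i, j, -2 ^ i + l, ?_⟩
          have e1 := ga_eq i (-1)
          rw [zpow_neg_one] at e1
          simp only [Fin.zero_eta, Fin.isValue]
          rw [hga', e1, zpow_add]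
          have : (2 : ℤ) ^ i * -1 = -2 ^ i := by ring
          rw [this]
          group
        · refine ⟨i, j, 2 ^ i + l, ?_⟩
          have e1 := ga_eq i 1
          rw [zpow_one] at e1
          simp only [Fin.zero_eta, Fin.isValue]
          rw [hga]
          have e2 : ∀ X : G, ga * X = (gt ^ i)⁻¹ * ga ^ ((2 : ℤ) ^ i * 1) * gt ^ i * X := by
            intro X
            rw [← e1]
          rw [e2, zpow_add]
          have : (2 : ℤ) ^ i * 1 = 2 ^ i := by ring
          rw [this]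
          group
      · rcases b with _ | _
        · refine ⟨i + 1, j, l, ?_⟩
          simp only [Fin.mk_one, Fin.isValue]
          rw [hgt', pow_succ]
          group
        · simp only [Fin.mk_one, Fin.isValue]
          rw [hgt]
          rcases i with _ | i
          · refine ⟨0, j + 1, 2 * l, ?_⟩
            have := conj_pow 1 l
            simp only [pow_one] at this
            simp only [pow_zero, inv_one, one_mul]
            rw [← mul_assoc, this, pow_succ']
            group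
          · refine ⟨i, j, l, ?_⟩
            rw [pow_succ]
            group
  obtain ⟨w, rfl⟩ := QuotientGroup.mk_surjective g
  obtain ⟨i, j, l, h⟩ := key w.toWord
  rw [FreeGroup.mk_toWord] at h
  exact ⟨i, j, l, h⟩

theorem rho_gt_pow (j : ℕ) : rho (gt ^ j) = ⟨0, j⟩ := by
  induction j with
  | zero => simp; rfl
  | succ j ih =>
    rw [pow_succ, map_mul, ih, rho_gt]
    ext <;> simp

theorem rho_gt_zpow (j : ℤ) : rho (gt ^ j) = ⟨0, j⟩ := by
  rcases Int.eq_nat_or_neg j with ⟨n, rfl | rfl⟩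
  · rw [zpow_natCast, rho_gt_pow]
  · rw [zpow_neg, zpow_natCast, map_inv, rho_gt_pow]
    ext <;> simp

theorem rho_ga_zpow (l : ℤ) : rho (ga ^ l) = ⟨l, 0⟩ := by
  have h : ∀ n : ℕ, rho (ga ^ n) = ⟨n, 0⟩ := by
    intro n
    induction n with
    | zero => simp; rfl
    | succ n ih =>
      rw [pow_succ, map_mul, ih, rho_ga]
      ext <;> simp
  rcases Int.eq_nat_or_neg l with ⟨n, rfl | rfl⟩
  · rw [zpow_natCast, h]; simp
  · rw [zpow_neg, zpow_natCast, map_inv, h]
    ext <;> simp

theorem rho_normal (i j : ℕ) (l : ℤ) : rho ((gt ^ i)⁻¹ * ga ^ l * gt ^ j) =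
    ⟨(l : ℚ) / 2 ^ i, (j : ℤ) - i⟩ := by
  rw [map_mul, map_mul, map_inv, rho_gt_pow, rho_gt_pow, rho_ga_zpow]
  ext
  · simp [div_eq_inv_mul]
  · simp; ring

theorem rho_inj : Function.Injective rho := by
  rw [injective_iff_map_eq_one]
  intro g hg
  obtain ⟨i, j, l, rfl⟩ := normal_form g
  rw [rho_normal] at hg
  have h1 := congrArg Aff.x hg
  have h2 := congrArg Aff.m hg
  simp only [Aff.one_x, Aff.one_m] at h1 h2
  have hl : l = 0 := by
    rw [div_eq_zero_iff] at h1
    rcases h1 with h1 | h1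
    · exact_mod_cast h1
    · exact absurd h1 (by positivity)
  have hij : i = j := by omega
  subst hl hij
  simp

/-- the permutation representations -/
def pa (N K : ℕ) : Equiv.Perm (ZMod N × ZMod K) :=
  Equiv.prodCongr (Equiv.addRight 1) (Equiv.refl _)

def pt (N K : ℕ) (u : (ZMod N)ˣ) : Equiv.Perm (ZMod N × ZMod K) :=
  Equiv.prodCongr (Units.mulLeft u) (Equiv.addRight 1)

theorem pa_zpow (N K : ℕ) (l : ℤ) (z : ZMod N × ZMod K) :
    ((pa N K) ^ l) z = (z.1 + l, z.2) := by
  have h : ∀ n : ℕ, ∀ z, ((pa N K) ^ n) z = (z.1 + n, z.2) := by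
    intro n
    induction n with
    | zero => intro z; simp
    | succ n ih =>
      intro z
      rw [pow_succ, Equiv.Perm.mul_apply, ih]
      simp [pa]
      ring
  rcases Int.eq_nat_or_neg l with ⟨n, rfl | rfl⟩
  · rw [zpow_natCast, h]; simp
  · rw [zpow_neg, zpow_natCast, Equiv.Perm.inv_eq_iff_eq, h]
    simp

theorem pt_pow (N K : ℕ) (u : (ZMod N)ˣ) (n : ℕ) (z : ZMod N × ZMod K) :
    ((pt N K u) ^ n) z = ((u ^ n : (ZMod N)ˣ) * z.1, z.2 + n) := by
  induction n generalizing z with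
  | zero => simp
  | succ n ih =>
    obtain ⟨z1, z2⟩ := z
    rw [pow_succ, Equiv.Perm.mul_apply, ih]
    have e : (pt N K u) (z1, z2) = (u * z1, z2 + 1) := rfl
    rw [e]
    ext
    · push_cast
      ring
    · push_cast
      ring

/-- residual finiteness -/
theorem resid (g : G) (hg : g ≠ 1) : ∃ (m : ℕ) (φ : G →* Equiv.Perm (Fin m)), φ g ≠ 1 := by
  obtain ⟨i, j, l, rfl⟩ := normal_form g
  -- parameters
  set N : ℕ := 2 * l.natAbs + 1 with hN
  set K : ℕ := i + j + 1 with hK
  have : NeZero N := ⟨by omega⟩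
  have : NeZero K := ⟨by omega⟩
  have h2 : Nat.Coprime 2 N := by
    rw [Nat.coprime_two_left]
    exact ⟨l.natAbs, rfl⟩
  let u : (ZMod N)ˣ := ZMod.unitOfCoprime 2 h2
  have hu : (u : ZMod N) = 2 := by simp [u]
  have hrel : pt N K u * pa N K * (pt N K u)⁻¹ = pa N K * pa N K := by
    rw [mul_inv_eq_iff_eq_mul]
    ext z
    · simp [pt, pa, hu]
      ring
    · simp [pt, pa]
  let ψ : G →* Equiv.Perm (ZMod N × ZMod K) := lft (pa N K) (pt N K u) hrel
  have hψ : ψ ((gt ^ i)⁻¹ * ga ^ l * gt ^ j) = ((pt N K u) ^ i)⁻¹ * (pa N K) ^ l * (pt N K u) ^ j := by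
    simp only [ψ, map_mul, map_inv, map_pow, map_zpow, lft_ga, lft_gt]
  have hne : ψ ((gt ^ i)⁻¹ * ga ^ l * gt ^ j) ≠ 1 := by
    rw [hψ]
    intro h
    have h3 : (pa N K) ^ l * (pt N K u) ^ j = (pt N K u) ^ i := by
      have := congrArg (fun x => (pt N K u) ^ i * x) h
      simpa [mul_assoc] using this
    have h4 := congrArg (fun f : Equiv.Perm (ZMod N × ZMod K) => f (0, 0)) h3
    simp only [Equiv.Perm.mul_apply, pt_pow, pa_zpow, mul_zero, zero_add, Prod.mk.injEq] at h4
    obtain ⟨h5, h6⟩ := h4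
    have hij : j = i := by
      have := (ZMod.natCast_eq_natCast_iff' j i K).1 h6
      rw [Nat.mod_eq_of_lt (by omega), Nat.mod_eq_of_lt (by omega)] at this
      exact this
    have hl : l = 0 := by
      rw [ZMod.intCast_zmod_eq_zero_iff_dvd] at h5
      exact Int.eq_zero_of_abs_lt_dvd h5 (by
        rw [Int.abs_eq_natAbs]
        omega)
    apply hg
    rw [hl, hij]
    simp
  let e := Fintype.equivFin (ZMod N × ZMod K)
  refine ⟨Fintype.card (ZMod N × ZMod K), (e.permCongrHom.toMonoidHom).comp ψ, ?_⟩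
  intro h
  apply hne
  have : e.permCongrHom (ψ ((gt ^ i)⁻¹ * ga ^ l * gt ^ j)) = 1 := h
  rw [← map_one e.permCongrHom] at this
  exact e.permCongrHom.injective this

end Pool.Agent.H395R6
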