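import Mathlib
import Pool.Agent.H395R5.ZB2

/-!
Arithmetic in `ℤ[1/2]`: divisibility of exponents and the certificate.
-/

set_option autoImplicit false

namespace Pool.Agent.H395R6

open Pool.Agent.H395R5

/-- the ring `ℤ[1/2]` -/
def D : Subring ℚ where
  carrier := {q | ∃ (l : ℤ) (i : ℕ), q = l / 2 ^ i}
  mul_mem' := by
    rintro _ _ ⟨l, i, rfl⟩ ⟨l', i', rfl⟩
    exact ⟨l * l', i + i', by push_cast; rw [pow_add]; field_simp⟩
  one_mem' := ⟨1, 0, by simp⟩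
  add_mem' := by
    rintro _ _ ⟨l, i, rfl⟩ ⟨l', i', rfl⟩
    exact ⟨l * 2 ^ i' + l' * 2 ^ i, i + i', by push_cast; rw [pow_add]; field_simp⟩
  zero_mem' := ⟨0, 0, by simp⟩
  neg_mem' := by
    rintro _ ⟨l, i, rfl⟩
    exact ⟨-l, i, by push_cast; ring⟩

theorem mem_D (q : ℚ) : q ∈ D ↔ ∃ (l : ℤ) (i : ℕ), q = l / 2 ^ i := Iff.rfl

theorem int_mem (l : ℤ) : (l : ℚ) ∈ D := ⟨l, 0, by simp⟩

theorem two_zpow_mem (y : ℤ) : (2 : ℚ) ^ y ∈ D := by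
  rcases Int.eq_nat_or_neg y with ⟨n, rfl | rfl⟩
  · exact ⟨2 ^ n, 0, by simp⟩
  · exact ⟨1, n, by simp⟩

theorem expand (x : ℚ) (hx0 : x ≠ 0) (hx : x ∈ D) (hi : x⁻¹ ∈ D) (n : ℤ) :
    ∃ (c : ℤ) (α : ℚ), α ∈ D ∧ 2 * c + n = n * n ∧
      x ^ n = 1 + (x - 1) * (n + c * (x - 1) + (x - 1) ^ 2 * α) := by
  have hY : x - 1 ∈ D := D.sub_mem hx D.one_mem
  induction n using Int.induction_on with
  | zero => exact ⟨0, 0, D.zero_mem, by ring, by simp⟩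
  | succ i ih =>
    obtain ⟨c, α, hα, hc, he⟩ := ih
    refine ⟨c + i, c + α + (x - 1) * α, D.add_mem (D.add_mem (int_mem c) hα) (D.mul_mem hY hα),
      by linarith, ?_⟩
    rw [zpow_add_one₀ hx0, he]
    push_cast
    ring
  | pred i ih =>
    obtain ⟨c, α, hα, hc, he⟩ := ih
    refine ⟨c + i + 1, (α - (c + i + 1 : ℤ)) * x⁻¹, D.mul_mem (D.sub_mem hα (int_mem _)) hi,
      by linarith, ?_⟩
    rw [zpow_sub_one₀ hx0, he]
    have hxx : x * x⁻¹ = 1 := mul_inv_cancel₀ hx0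
    push_cast
    field_simp
    ring

theorem odd_dvd {N b : ℤ} (hN : Odd N) {w : ℚ} (hw : w ∈ D) (h : (b : ℚ) = N * w) : N ∣ b := by
  obtain ⟨l, i, rfl⟩ := hw
  have h1 : b * 2 ^ i = N * l := by
    have : (b : ℚ) * 2 ^ i = N * l := by
      rw [h]; field_simp
    exact_mod_cast this
  have hc : IsCoprime N (2 ^ i) := by
    apply IsCoprime.pow_right
    obtain ⟨k, hk⟩ := hN
    exact ⟨1, -k, by rw [hk]; ring⟩
  exact hc.dvd_of_dvd_mul_right ⟨l, h1⟩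

theorem dvdD_of {y e : ℤ} (h : y ∣ e) : ∃ A ∈ D, ((2 : ℚ) ^ y - 1) * A = 2 ^ e - 1 := by
  obtain ⟨n, rfl⟩ := h
  obtain ⟨c, α, hα, hc, he⟩ := expand ((2 : ℚ) ^ y) (by positivity) (two_zpow_mem y)
    (by rw [← zpow_neg]; exact two_zpow_mem _) n
  have hY : (2 : ℚ) ^ y - 1 ∈ D := D.sub_mem (two_zpow_mem y) D.one_mem
  refine ⟨n + c * ((2 : ℚ) ^ y - 1) + ((2 : ℚ) ^ y - 1) ^ 2 * α,
    D.add_mem (D.add_mem (int_mem n) (D.mul_mem (int_mem c) hY))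
      (D.mul_mem (D.pow_mem hY 2) hα), ?_⟩
  rw [zpow_mul, he]
  ring

theorem odd_two_pow_sub_one (n : ℕ) (hn : 1 ≤ n) : Odd ((2 : ℤ) ^ n - 1) := by
  obtain ⟨k, rfl⟩ : ∃ k, n = k + 1 := ⟨n - 1, by omega⟩
  exact ⟨2 ^ k - 1, by rw [pow_succ]; ring⟩

theorem dvdD (y e : ℤ) : (∃ A ∈ D, ((2 : ℚ) ^ y - 1) * A = 2 ^ e - 1) ↔ y ∣ e := by
  constructor
  · rintro ⟨A, hA, h⟩
    rcases eq_or_ne y 0 with rfl | hy
    · have : (2 : ℚ) ^ e = 2 ^ (0 : ℤ) := by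
        have := h
        simp only [zpow_zero, sub_self, zero_mul] at this
        rw [zpow_zero]; linarith
      have : e = 0 := zpow_right_injective₀ (by norm_num) (by norm_num) this
      rw [this]
    · obtain ⟨A1, hA1, h1⟩ := dvdD_of (show (y.natAbs : ℤ) ∣ y from Int.natAbs_dvd.2 dvd_rfl)
      obtain ⟨A2, hA2, h2⟩ := dvdD_of (show e ∣ (e.natAbs : ℤ) from Int.dvd_natAbs.2 dvd_rfl)
      rw [zpow_natCast] at h1 h2
      have h3 : (((2 : ℤ) ^ e.natAbs - 1 : ℤ) : ℚ) =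
          ((2 : ℤ) ^ y.natAbs - 1 : ℤ) * (A1 * A * A2) := by
        push_cast
        rw [← h2, ← h, ← h1]
        ring
      have hn : 1 ≤ y.natAbs := Int.natAbs_pos.2 hy
      have h4 := odd_dvd (odd_two_pow_sub_one _ hn) (D.mul_mem (D.mul_mem hA1 hA) hA2) h3
      have h5 := (dvd_exp_iff _ _ hn).1 h4
      exact Int.natAbs_dvd_natAbs.1 h5
  · exact dvdD_of

theorem certD_sound (u y : ℤ) (z m : ℚ) (hz : z ∈ D) (hm : m ∈ D)
    (h : ((2 : ℚ) ^ y - 1) * m = (z * z + 1) * (2 ^ (2 * u) - 1)) (d : ℕ) (hd : 1 < d)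
    (ho : Odd d) (hy : (d : ℤ) ∣ y) (hu : IsCoprime (d : ℤ) u) : False := by
  obtain ⟨m1, hm1, e1⟩ := dvdD_of hy
  have h2 : IsCoprime (d : ℤ) (2 * u) := by
    apply IsCoprime.mul_right _ hu
    obtain ⟨k, hk⟩ := ho
    exact ⟨1, -k, by rw [hk]; push_cast; ring⟩
  obtain ⟨p, q, hpq⟩ := h2
  obtain ⟨c1, hc1, e2⟩ := dvdD_of (show (d : ℤ) ∣ p * d from Dvd.intro_left _ rfl)
  obtain ⟨c2, hc2, e3⟩ := dvdD_of (show 2 * u ∣ q * (2 * u) from Dvd.intro_left _ rfl)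
  rw [zpow_natCast] at e1 e2
  set N : ℚ := 2 ^ d - 1 with hN
  set M : ℚ := 2 ^ (2 * u) - 1 with hM
  have hMD : M ∈ D := D.sub_mem (two_zpow_mem _) D.one_mem
  have e4 : (1 + N * c1) * (1 + M * c2) = 2 := by
    rw [e2, e3]
    have : (1 + ((2 : ℚ) ^ (p * (d : ℤ)) - 1)) * (1 + (2 ^ (q * (2 * u)) - 1)) =
      2 ^ (p * (d : ℤ)) * 2 ^ (q * (2 * u)) := by ring
    rw [this, ← zpow_add₀ (by norm_num), hpq, zpow_one]
  have e5 : z * z + 1 = N * ((z * z + 1) * (c1 * (1 + M * c2)) + m1 * m * c2) := by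
    have e6 : N * (c1 * (1 + M * c2)) + M * c2 = 1 := by linarith
    have e7 : N * (m1 * m) = (z * z + 1) * M := by rw [← h, ← e1]; ring
    calc z * z + 1 = (z * z + 1) * (N * (c1 * (1 + M * c2)) + M * c2) := by rw [e6, mul_one]
      _ = N * ((z * z + 1) * (c1 * (1 + M * c2))) + ((z * z + 1) * M) * c2 := by ring
      _ = _ := by rw [← e7]; ring
  have hw : (z * z + 1) * (c1 * (1 + M * c2)) + m1 * m * c2 ∈ D :=
    D.add_mem (D.mul_mem (D.add_mem (D.mul_mem hz hz) D.one_mem)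
      (D.mul_mem hc1 (D.add_mem D.one_mem (D.mul_mem hMD hc2))))
      (D.mul_mem (D.mul_mem hm1 hm) hc2)
  obtain ⟨l, i, hl⟩ := hz
  set w := (z * z + 1) * (c1 * (1 + M * c2)) + m1 * m * c2 with hww
  have e8 : ((l * l + 2 ^ i * 2 ^ i : ℤ) : ℚ) = ((2 : ℤ) ^ d - 1 : ℤ) * (w * (2 ^ i * 2 ^ i)) := by
    have : ((l * l + 2 ^ i * 2 ^ i : ℤ) : ℚ) = (z * z + 1) * (2 ^ i * 2 ^ i) := by
      rw [hl]; push_cast; field_simp
    rw [this, e5, hN]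
    push_cast
    ring
  have hw2 : w * (2 ^ i * 2 ^ i) ∈ D := by
    apply D.mul_mem hw
    have : (2 : ℚ) ^ i ∈ D := by
      have := two_zpow_mem (i : ℤ)
      rwa [zpow_natCast] at this
    exact D.mul_mem this this
  have h3 := odd_dvd (odd_two_pow_sub_one d (by omega)) hw2 e8
  set n : ℕ := 2 ^ d - 1 with hn
  have hcast : (n : ℤ) = 2 ^ d - 1 := two_pow_sub_one_cast d
  rw [← hcast] at h3
  have h4 : 4 ∣ 2 ^ d := by
    have : 2 ^ 2 ∣ 2 ^ d := pow_dvd_pow 2 (by omega)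
    simpa using this
  have hmod : n % 4 = 3 := by
    have : 1 ≤ 2 ^ d := Nat.one_le_two_pow
    omega
  have hodd : Odd n := by
    rw [Nat.odd_iff]; omega
  have f1 := jacobiSym.at_neg_one hodd
  rw [ZMod.χ₄_nat_three_mod_four hmod] at f1
  have f2 : jacobiSym (-1 * ((2 : ℤ) ^ i) ^ 2) n = jacobiSym (l ^ 2) n := by
    apply jacobiSym.mod_left'
    have : (n : ℤ) ∣ l ^ 2 - (-1 * ((2 : ℤ) ^ i) ^ 2) := by
      have e : l ^ 2 - (-1 * ((2 : ℤ) ^ i) ^ 2) = l * l + 2 ^ i * 2 ^ i := by ring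
      rw [e]; exact h3
    exact Int.modEq_iff_dvd.2 this
  have f3 : jacobiSym ((2 : ℤ) ^ i) n ^ 2 = 1 := by
    apply jacobiSym.sq_one
    have : IsCoprime ((2 : ℤ) ^ i) (n : ℤ) := by
      apply IsCoprime.pow_left
      obtain ⟨k, hk⟩ := hodd
      exact ⟨-k, 1, by rw [hk]; push_cast; ring⟩
    exact Int.isCoprime_iff_gcd_eq_one.1 this
  rw [jacobiSym.mul_left, jacobiSym.pow_left, f3, mul_one, f1, jacobiSym.pow_left] at f2
  have := sq_nonneg (jacobiSym l n)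
  linarith

theorem zpow_sq (x : ℚ) (n : ℤ) : (x ^ n) ^ 2 = (x ^ 2) ^ n := by
  rw [sq, sq, mul_zpow]

/-- the gadget: a certificate in terms of equations -/
def CG (u y : ℤ) : Prop := ∃ (e : ℤ) (q : Fin 9 → ℚ), (∀ i, q i ∈ D) ∧
  -- z = q 0, r = q 1, A = q 2, B = q 3, W = q 4, V = q 5, k = q 6, l = q 7, m = q 8
  2 ^ y * q 2 + -q 2 = 2 ^ e * 1 + -1 ∧
  2 ^ (y + y) * q 3 + -q 3 = 2 ^ (e + e) * 1 + -1 ∧
  q 3 + -q 2 = (2 ^ y * q 4 + -q 4) + ((2 ^ (y + y) * q 5 + -(2 ^ y * q 5)) +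
    (-(2 ^ y * q 5) + q 5)) ∧
  q 2 + -q 0 = 2 ^ y * q 6 + -q 6 ∧
  q 1 + -(q 4 + (q 4 + q 0)) = 2 ^ y * q 7 + -q 7 ∧
  2 ^ y * q 8 + -q 8 = 2 ^ (u + u) * (q 1 + 1) + -(q 1 + 1)

theorem cg_sound (u y : ℤ) (hy : y ≠ 0) (h : CG u y) (d : ℕ) (hd : 1 < d)
    (ho : Odd d) (hdy : (d : ℤ) ∣ y) (hu : IsCoprime (d : ℤ) u) : False := by
  obtain ⟨e, q, hq, h1, h2, h3, h4, h5, h6⟩ := h
  set x : ℚ := 2 ^ y with hx
  have hx0 : x ≠ 0 := by positivity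
  have hxD : x ∈ D := two_zpow_mem y
  have hxi : x⁻¹ ∈ D := by rw [hx, ← zpow_neg]; exact two_zpow_mem _
  have hyy : (2 : ℚ) ^ (y + y) = x ^ 2 := by rw [zpow_add₀ (by norm_num)]; ring
  have hee : (2 : ℚ) ^ (e + e) = (2 ^ e) ^ 2 := by rw [zpow_add₀ (by norm_num)]; ring
  rw [hyy, hee] at h2
  rw [hyy] at h3
  obtain ⟨n, hn⟩ := (dvdD y e).1 ⟨q 2, hq 2, by rw [← hx]; linarith⟩
  have hE : (2 : ℚ) ^ e = x ^ n := by rw [hn, zpow_mul]
  have hx1 : x ≠ 1 := by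
    intro h
    apply hy
    have : (2 : ℚ) ^ y = 2 ^ (0 : ℤ) := by rw [← hx, h, zpow_zero]
    exact zpow_right_injective₀ (by norm_num) (by norm_num) this
  have hY0 : x - 1 ≠ 0 := sub_ne_zero.2 hx1
  have hxp : 0 < x := by positivity
  have hY2 : x ^ 2 - 1 ≠ 0 := by
    have : x ^ 2 - 1 = (x - 1) * (x + 1) := by ring
    rw [this]
    exact mul_ne_zero hY0 (by positivity)
  obtain ⟨C, α, hα, hC, hA0⟩ := expand x hx0 hxD hxi n
  obtain ⟨C', β, hβ, hC', hB0⟩ := expand (x ^ 2) (by positivity) (D.pow_mem hxD 2)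
    (by rw [← inv_pow]; exact D.pow_mem hxi 2) n
  have hCC : C' = C := by linarith
  subst hCC
  have hA : q 2 = n + C' * (x - 1) + (x - 1) ^ 2 * α := by
    apply mul_left_cancel₀ hY0
    have : (x - 1) * q 2 = x ^ n - 1 := by rw [← hE]; linarith
    rw [this, hA0]
    ring
  have hB : q 3 = n + C' * (x ^ 2 - 1) + (x ^ 2 - 1) ^ 2 * β := by
    apply mul_left_cancel₀ hY2
    have e1 : (x ^ n) ^ 2 = (x ^ 2) ^ n := zpow_sq x n
    have : (x ^ 2 - 1) * q 3 = (x ^ 2) ^ n - 1 := by rw [← e1, ← hE]; linarith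
    rw [this, hB0]
    ring
  set Y := x - 1 with hYd
  have hYD : Y ∈ D := D.sub_mem hxD D.one_mem
  have hxY : x = 1 + Y := by rw [hYd]; ring
  have hW : q 4 = C' + Y * (C' + (2 + Y) ^ 2 * β - α - q 5) := by
    apply mul_left_cancel₀ hY0
    have e : Y * q 4 = q 3 - q 2 - ((x ^ 2 * q 5 + -(x * q 5)) + (-(x * q 5) + q 5)) := by
      rw [hYd]; linarith
    rw [e, hA, hB, hxY]
    ring
  have hz : q 0 = n + Y * (C' + Y * α - q 6) := by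
    have : q 0 = q 2 - (x * q 6 - q 6) := by linarith
    rw [this, hA, hxY]; ring
  have hr : q 1 = q 4 + q 4 + q 0 + Y * q 7 := by
    have : q 1 = q 4 + q 4 + q 0 + (x * q 7 - q 7) := by linarith
    rw [this, hxY]; ring
  have hch : 2 * (C' : ℚ) + n = n * n := by exact_mod_cast hC
  set Q := C' + Y * α - q 6 with hQ
  set R := C' + (2 + Y) ^ 2 * β - α - q 5 with hR
  have hQD : Q ∈ D := D.sub_mem (D.add_mem (int_mem _) (D.mul_mem hYD hα)) (hq 6)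
  have h2D : (2 : ℚ) ∈ D := by
    have := int_mem 2
    exact_mod_cast this
  have hRD : R ∈ D := D.sub_mem (D.sub_mem (D.add_mem (int_mem _) (D.mul_mem (D.pow_mem
    (D.add_mem h2D hYD) 2) hβ)) hα) (hq 5)
  set s := 2 * R + Q + q 7 - 2 * n * Q - Y * Q * Q with hs
  have hsD : s ∈ D := by
    refine D.sub_mem (D.sub_mem (D.add_mem (D.add_mem (D.mul_mem h2D hRD) hQD) (hq 7))
      (D.mul_mem (D.mul_mem h2D (int_mem n)) hQD)) (D.mul_mem (D.mul_mem hYD hQD) hQD)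
  have hrs : q 1 = q 0 * q 0 + Y * s := by
    rw [hr, hW, hz, hs]
    linear_combination hch
  have huu : (2 : ℚ) ^ (u + u) = 2 ^ (2 * u) := by rw [two_mul]
  rw [huu] at h6
  set U : ℚ := 2 ^ (2 * u) with hU
  refine certD_sound u y (q 0) (q 8 - s * (U - 1)) (hq 0)
    (D.sub_mem (hq 8) (D.mul_mem hsD (D.sub_mem (two_zpow_mem _) D.one_mem))) ?_ d hd ho hdy hu
  rw [← hx, ← hU]
  have h7 : (q 0 * q 0 + 1) = q 1 + 1 - Y * s := by rw [hrs]; ring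
  rw [h7]
  have h8 : x - 1 = Y := rfl
  rw [h8]
  have h9 : Y * q 8 = U * (q 1 + 1) + -(q 1 + 1) := by rw [hYd]; linarith
  linear_combination h9

theorem cg_complete (x : ℕ) (hx : 1 ≤ x) (s : ℕ) : CG x ((x * 2 ^ (s + 1) : ℕ) : ℤ) := by
  obtain ⟨n, m, hm⟩ := cert_complete x hx s
  set b : ℕ := x * 2 ^ (s + 1) with hb
  set X : ℚ := 2 ^ b with hX
  have hXz : (2 : ℚ) ^ (b : ℤ) = X := by rw [zpow_natCast]
  have hX0 : X ≠ 0 := by positivity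
  have hXD : X ∈ D := by rw [← hXz]; exact two_zpow_mem _
  have hXi : X⁻¹ ∈ D := by rw [← hXz, ← zpow_neg]; exact two_zpow_mem _
  obtain ⟨C, α, hα, hC, hA0⟩ := expand X hX0 hXD hXi n
  obtain ⟨C', β, hβ, hC', hB0⟩ := expand (X ^ 2) (by positivity) (D.pow_mem hXD 2)
    (by rw [← inv_pow]; exact D.pow_mem hXi 2) n
  have hCC : C' = C := by linarith
  subst hCC
  have hYD : X - 1 ∈ D := D.sub_mem hXD D.one_mem
  have h2D : (2 : ℚ) ∈ D := by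
    have := int_mem 2
    exact_mod_cast this
  have hch : 2 * (C' : ℚ) + n = n * n := by exact_mod_cast hC
  have hX2 : X ^ 2 - 1 ∈ D := D.sub_mem (D.pow_mem hXD 2) D.one_mem
  refine ⟨b * n, ![(n : ℚ), (n : ℚ) * n, n + C' * (X - 1) + (X - 1) ^ 2 * α,
    n + C' * (X ^ 2 - 1) + (X ^ 2 - 1) ^ 2 * β, C', C' + (X + 1) ^ 2 * β - α,
    C' + (X - 1) * α, 0, m], ?_, ?_, ?_, ?_, ?_, ?_, ?_⟩
  · intro i
    fin_cases i
    · exact int_mem n
    · exact D.mul_mem (int_mem n) (int_mem n)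
    · exact D.add_mem (D.add_mem (int_mem _) (D.mul_mem (int_mem _) hYD))
        (D.mul_mem (D.pow_mem hYD 2) hα)
    · exact D.add_mem (D.add_mem (int_mem _) (D.mul_mem (int_mem _) hX2))
        (D.mul_mem (D.pow_mem hX2 2) hβ)
    · exact int_mem _
    · exact D.sub_mem (D.add_mem (int_mem _) (D.mul_mem (D.pow_mem
        (D.add_mem hXD D.one_mem) 2) hβ)) hα
    · exact D.add_mem (int_mem _) (D.mul_mem hYD hα)
    · exact D.zero_mem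
    · exact int_mem m
  · change 2 ^ (b : ℤ) * (n + C' * (X - 1) + (X - 1) ^ 2 * α) +
      -(n + C' * (X - 1) + (X - 1) ^ 2 * α) = 2 ^ ((b : ℤ) * n) * 1 + -1
    rw [zpow_mul, hXz, hA0]
    ring
  · change 2 ^ ((b : ℤ) + b) * (n + C' * (X ^ 2 - 1) + (X ^ 2 - 1) ^ 2 * β) +
      -(n + C' * (X ^ 2 - 1) + (X ^ 2 - 1) ^ 2 * β) = 2 ^ ((b : ℤ) * n + b * n) * 1 + -1
    have e1 : (2 : ℚ) ^ ((b : ℤ) + b) = X ^ 2 := by
      rw [zpow_add₀ (by norm_num), hXz]; ring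
    have e2 : (2 : ℚ) ^ ((b : ℤ) * n + b * n) = (X ^ 2) ^ n := by
      have : (b : ℤ) * n + b * n = b * (2 * n) := by ring
      rw [this, zpow_mul, hXz, zpow_mul]
      norm_cast
    rw [e1, e2, hB0]
    ring
  · change (n + C' * (X ^ 2 - 1) + (X ^ 2 - 1) ^ 2 * β) + -(n + C' * (X - 1) + (X - 1) ^ 2 * α) =
      (2 ^ (b : ℤ) * (C' : ℚ) + -(C' : ℚ)) + ((2 ^ ((b : ℤ) + b) * (C' + (X + 1) ^ 2 * β - α) +
      -(2 ^ (b : ℤ) * (C' + (X + 1) ^ 2 * β - α))) +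
      (-(2 ^ (b : ℤ) * (C' + (X + 1) ^ 2 * β - α)) + (C' + (X + 1) ^ 2 * β - α)))
    have e1 : (2 : ℚ) ^ ((b : ℤ) + b) = X ^ 2 := by
      rw [zpow_add₀ (by norm_num), hXz]; ring
    rw [e1, hXz]
    ring
  · change (n + C' * (X - 1) + (X - 1) ^ 2 * α) + -(n : ℚ) =
      2 ^ (b : ℤ) * (C' + (X - 1) * α) + -(C' + (X - 1) * α)
    rw [hXz]
    ring
  · change (n : ℚ) * n + -((C' : ℚ) + (C' + n)) = 2 ^ (b : ℤ) * 0 + -0
    linear_combination (-1 : ℚ) * hch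
  · change 2 ^ (b : ℤ) * (m : ℚ) + -(m : ℚ) = 2 ^ ((x : ℤ) + x) * ((n : ℚ) * n + 1) +
      -((n : ℚ) * n + 1)
    have e1 : (2 : ℚ) ^ ((x : ℤ) + x) = 2 ^ (2 * x) := by
      rw [← zpow_natCast]
      congr 1
      push_cast
      ring
    have hm' : ((n : ℚ) * n + 1) * (2 ^ (2 * x) - 1) = (2 ^ b - 1) * m := by exact_mod_cast hm
    rw [e1, hXz]
    linear_combination (-1 : ℚ) * hm'

end Pool.Agent.H395R6
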