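import Mathlib
import Pool.Agent.H395R6.BA1

/-!
Predicates on `BS(1,2)` definable by systems of equations, and predicates on the integers
definable through the powers of `t`.
-/

set_option autoImplicit false

namespace Pool.Agent.H395R6

/-- evaluation of words -/
def ev {V : Type} (v : V → G) : FreeGroup (Fin 2 ⊕ V) →* G :=
  FreeGroup.lift (Sum.elim (fun i : Fin 2 => (PresentedGroup.of i : G)) v)

/-- predicates definable by systems of equations -/
def GD {α : Type} (S : (α → G) → Prop) : Prop :=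
  ∃ (β : Type) (_ : Fintype β) (L : List (FreeGroup (Fin 2 ⊕ (α ⊕ β)))), ∀ v : α → G,
    (S v ↔ ∃ y : β → G, ∀ w ∈ L, ev (Sum.elim v y) w = 1)

/-- substitution of words -/
def sb {V W : Type} (F : V → FreeGroup (Fin 2 ⊕ W)) :
    FreeGroup (Fin 2 ⊕ V) →* FreeGroup (Fin 2 ⊕ W) :=
  FreeGroup.lift (Sum.elim (fun i => FreeGroup.of (Sum.inl i)) F)

theorem ev_sb {V W : Type} (F : V → FreeGroup (Fin 2 ⊕ W)) (v : W → G)
    (w : FreeGroup (Fin 2 ⊕ V)) : ev v (sb F w) = ev (fun c => ev v (F c)) w := by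
  have : (ev v).comp (sb F) = ev (fun c => ev v (F c)) := by
    apply FreeGroup.ext_hom
    intro c
    rcases c with c | c
    · simp [ev, sb]
    · simp [ev, sb]
  rw [← this]
  rfl

theorem GD.congr {α : Type} {S T : (α → G) → Prop} (h : GD S)
    (e : ∀ v, (T v ↔ S v)) : GD T := by
  obtain ⟨β, i, L, hL⟩ := h
  exact ⟨β, i, L, fun v => (e v).trans (hL v)⟩

/-- the word consisting of a variable -/
def vw {V : Type} (c : V) : FreeGroup (Fin 2 ⊕ V) := FreeGroup.of (Sum.inr c)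

@[simp] theorem ev_vw {V : Type} (v : V → G) (c : V) : ev v (vw c) = v c := by
  simp [ev, vw]

/-- renaming of variables -/
def rn {V W : Type} (f : V → W) : FreeGroup (Fin 2 ⊕ V) →* FreeGroup (Fin 2 ⊕ W) :=
  sb (fun c => vw (f c))

theorem ev_rn {V W : Type} (f : V → W) (v : W → G) (w : FreeGroup (Fin 2 ⊕ V)) :
    ev v (rn f w) = ev (v ∘ f) w := by
  unfold rn
  rw [ev_sb]
  congr 1
  congr 1
  funext c
  simp

theorem GD.and {α : Type} {S T : (α → G) → Prop} (hS : GD S) (hT : GD T) :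
    GD (fun v => S v ∧ T v) := by
  obtain ⟨β₁, i₁, L₁, h₁⟩ := hS
  obtain ⟨β₂, i₂, L₂, h₂⟩ := hT
  refine ⟨β₁ ⊕ β₂, inferInstance, L₁.map (rn (Sum.map id Sum.inl)) ++
    L₂.map (rn (Sum.map id Sum.inr)), fun v => ?_⟩
  change (S v ∧ T v) ↔ _
  rw [h₁ v, h₂ v]
  constructor
  · rintro ⟨⟨y₁, q₁⟩, ⟨y₂, q₂⟩⟩
    refine ⟨Sum.elim y₁ y₂, ?_⟩
    intro c hc
    rw [List.mem_append, List.mem_map, List.mem_map] at hc
    rcases hc with ⟨c, hc, rfl⟩ | ⟨c, hc, rfl⟩
    · rw [ev_rn]
      have := q₁ c hc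
      convert this using 2
      congr 1
      funext i
      rcases i with i | i <;> rfl
    · rw [ev_rn]
      have := q₂ c hc
      convert this using 2
      congr 1
      funext i
      rcases i with i | i <;> rfl
  · rintro ⟨y, q⟩
    refine ⟨⟨y ∘ Sum.inl, ?_⟩, ⟨y ∘ Sum.inr, ?_⟩⟩
    · intro c hc
      have := q _ (List.mem_append_left _ (List.mem_map_of_mem hc))
      rw [ev_rn] at this
      convert this using 2
      congr 1
      funext i
      rcases i with i | i <;> rfl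
    · intro c hc
      have := q _ (List.mem_append_right _ (List.mem_map_of_mem hc))
      rw [ev_rn] at this
      convert this using 2
      congr 1
      funext i
      rcases i with i | i <;> rfl

theorem GD.exs {α δ : Type} [Fintype δ] {S : (α ⊕ δ → G) → Prop} (h : GD S) :
    GD (fun v : α → G => ∃ t : δ → G, S (Sum.elim v t)) := by
  obtain ⟨β, i, L, hL⟩ := h
  refine ⟨δ ⊕ β, inferInstance, L.map (rn (fun x => match x with
    | Sum.inl (Sum.inl a) => Sum.inl a
    | Sum.inl (Sum.inr d) => Sum.inr (Sum.inl d)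
    | Sum.inr b => Sum.inr (Sum.inr b))), fun v => ?_⟩
  constructor
  · rintro ⟨t, hS⟩
    obtain ⟨y, hc⟩ := (hL _).1 hS
    refine ⟨Sum.elim t y, ?_⟩
    intro c hc'
    rw [List.mem_map] at hc'
    obtain ⟨c, hc', rfl⟩ := hc'
    rw [ev_rn]
    have := hc c hc'
    convert this using 2
    congr 1
    funext i
    rcases i with (i | i) | i <;> rfl
  · rintro ⟨y, hc⟩
    refine ⟨y ∘ Sum.inl, ?_⟩
    refine (hL _).2 ⟨y ∘ Sum.inr, ?_⟩
    intro c hc'
    have := hc _ (List.mem_map_of_mem hc')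
    rw [ev_rn] at this
    convert this using 2
    congr 1
    funext i
    rcases i with (i | i) | i <;> rfl

/-- terms -/
def GT {α : Type} (f : (α → G) → G) : Prop :=
  ∃ w : FreeGroup (Fin 2 ⊕ α), ∀ v, f v = ev v w

theorem GT.var {α : Type} (i : α) : GT (fun v : α → G => v i) := ⟨vw i, fun v => by simp⟩

theorem GT.ga {α : Type} : GT (fun _ : α → G => ga) :=
  ⟨FreeGroup.of (Sum.inl 0), fun v => by simp [ev, H395R6.ga]⟩

theorem GT.gt {α : Type} : GT (fun _ : α → G => gt) :=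
  ⟨FreeGroup.of (Sum.inl 1), fun v => by simp [ev, H395R6.gt]⟩

theorem GT.mul {α : Type} {f g : (α → G) → G} (hf : GT f) (hg : GT g) :
    GT (fun v => f v * g v) := by
  obtain ⟨w, hw⟩ := hf
  obtain ⟨w', hw'⟩ := hg
  exact ⟨w * w', fun v => by
    change f v * g v = _
    rw [map_mul, hw, hw']⟩

theorem GT.inv {α : Type} {f : (α → G) → G} (hf : GT f) : GT (fun v => (f v)⁻¹) := by
  obtain ⟨w, hw⟩ := hf
  exact ⟨w⁻¹, fun v => by
    change (f v)⁻¹ = _
    rw [map_inv, hw]⟩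

theorem GT.zpow {α : Type} {f : (α → G) → G} (hf : GT f) (n : ℤ) : GT (fun v => (f v) ^ n) := by
  obtain ⟨w, hw⟩ := hf
  exact ⟨w ^ n, fun v => by
    change (f v) ^ n = _
    rw [map_zpow, hw]⟩

theorem GD.subst {α γ : Type} {S : (γ → G) → Prop} (h : GD S) {F : γ → (α → G) → G}
    (hF : ∀ c, GT (F c)) : GD (fun v : α → G => S (fun c => F c v)) := by
  obtain ⟨β, i, L, hL⟩ := h
  choose w hw using hF
  refine ⟨β, i, L.map (sb (Sum.elim (fun c => rn Sum.inl (w c)) (fun b => vw (Sum.inr b)))),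
    fun v => ?_⟩
  change S (fun c => F c v) ↔ _
  rw [hL]
  have key : ∀ (y : β → G) (u : FreeGroup (Fin 2 ⊕ (γ ⊕ β))),
      ev (Sum.elim v y) (sb (Sum.elim (fun c => rn Sum.inl (w c)) (fun b => vw (Sum.inr b))) u) =
        ev (Sum.elim (fun c => F c v) y) u := by
    intro y u
    rw [ev_sb]
    congr 1
    congr 1
    funext c
    rcases c with c | c
    · simp only [Sum.elim_inl]
      rw [ev_rn, hw]
      rfl
    · simp
  constructor
  · rintro ⟨y, hy⟩
    refine ⟨y, ?_⟩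
    intro c hc
    rw [List.mem_map] at hc
    obtain ⟨c, hc, rfl⟩ := hc
    rw [key]
    exact hy c hc
  · rintro ⟨y, hy⟩
    refine ⟨y, ?_⟩
    intro c hc
    rw [← key]
    exact hy _ (List.mem_map_of_mem hc)

theorem GD.eq {α : Type} {f g : (α → G) → G} (hf : GT f) (hg : GT g) :
    GD (fun v : α → G => f v = g v) := by
  obtain ⟨w, hw⟩ := hf
  obtain ⟨w', hw'⟩ := hg
  refine ⟨Empty, inferInstance, [rn Sum.inl (w * w'⁻¹)], fun v => ?_⟩
  simp only [List.mem_singleton, forall_eq, ev_rn]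
  have e : ∀ y : Empty → G, (Sum.elim v y ∘ Sum.inl) = v := fun y => rfl
  simp only [e, map_mul, map_inv, ← hw, ← hw', mul_inv_eq_one]
  constructor
  · intro h
    exact ⟨Empty.elim, h⟩
  · rintro ⟨_, h⟩
    exact h

theorem GD.true' {α : Type} : GD (fun _ : α → G => True) := by
  refine ⟨Empty, inferInstance, [], fun v => ?_⟩
  simp only [List.not_mem_nil, false_implies, implies_true, true_iff]
  exact ⟨Empty.elim, trivial⟩

theorem GD.all {α δ : Type} [Fintype δ] {S : δ → (α → G) → Prop} (h : ∀ d, GD (S d)) :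
    GD (fun v => ∀ d, S d v) := by
  have key : ∀ l : List δ, GD (fun v => ∀ d ∈ l, S d v) := by
    intro l
    induction l with
    | nil => exact GD.true'.congr fun v => by simp
    | cons a l ih => exact ((h a).and ih).congr fun v => by simp
  exact (key Finset.univ.toList).congr fun v => by simp

/-! ### predicates on the integers -/

/-- the powers of `t` -/
def pw {α : Type} (v : α → ℤ) : α → G := fun i => gt ^ v i

theorem comm_gt (g : G) : g * gt = gt * g ↔ ∃ m : ℤ, g = gt ^ m := by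
  constructor
  · intro h
    refine ⟨(rho g).m, ?_⟩
    apply rho_inj
    rw [rho_gt_zpow]
    have h1 := congrArg (fun g => (rho g).x) h
    simp only [map_mul, rho_gt, Aff.mul_x] at h1
    ext
    · simp only
      simp at h1
      linarith
    · rfl
  · rintro ⟨m, rfl⟩
    exact ((Commute.refl gt).zpow_left m).eq

/-- predicates on the integers definable in the group -/
def ED {α : Type} (S : (α → ℤ) → Prop) : Prop :=
  ∃ T : (α → G) → Prop, GD T ∧ ∀ v, S v ↔ T (pw v)

theorem ED.congr {α : Type} {S T : (α → ℤ) → Prop} (h : ED S)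
    (e : ∀ v, (T v ↔ S v)) : ED T := by
  obtain ⟨Z, i, hL⟩ := h
  exact ⟨Z, i, fun v => (e v).trans (hL v)⟩

theorem ED.and {α : Type} {S T : (α → ℤ) → Prop} (hS : ED S) (hT : ED T) :
    ED (fun v => S v ∧ T v) := by
  obtain ⟨Z₁, i₁, h₁⟩ := hS
  obtain ⟨Z₂, i₂, h₂⟩ := hT
  exact ⟨fun v => Z₁ v ∧ Z₂ v, i₁.and i₂, fun v => and_congr (h₁ v) (h₂ v)⟩

theorem ED.exs {α δ : Type} [Fintype δ] {S : (α ⊕ δ → ℤ) → Prop} (h : ED S) :
    ED (fun v : α → ℤ => ∃ t : δ → ℤ, S (Sum.elim v t)) := by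
  obtain ⟨Z, i, hZ⟩ := h
  have a1 : GD (fun v : α ⊕ δ → G => ∀ d : δ, v (Sum.inr d) * gt = gt * v (Sum.inr d)) :=
    GD.all fun d => GD.eq (GT.mul (GT.var _) GT.gt) (GT.mul GT.gt (GT.var _))
  refine ⟨_, GD.exs (a1.and i), fun v => ?_⟩
  have ee : ∀ t : δ → ℤ, pw (Sum.elim v t) = Sum.elim (pw v) (pw t) := by
    intro t
    funext i
    rcases i with i | i <;> rfl
  constructor
  · rintro ⟨t, hS⟩
    refine ⟨pw t, fun d => (comm_gt _).2 ⟨t d, rfl⟩, ?_⟩
    rw [← ee]
    exact (hZ _).1 hS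
  · rintro ⟨y, hy, hZy⟩
    have : ∀ d, ∃ n : ℤ, y d = gt ^ n := fun d => (comm_gt _).1 (hy d)
    choose n hn using this
    have e : y = pw n := funext hn
    refine ⟨n, ?_⟩
    rw [hZ _, ee, ← e]
    exact hZy

/-- integer terms -/
def ET {α : Type} (f : (α → ℤ) → ℤ) : Prop :=
  ∃ F : (α → G) → G, GT F ∧ ∀ v, gt ^ f v = F (pw v)

theorem ET.var {α : Type} (i : α) : ET (fun v : α → ℤ => v i) := ⟨_, GT.var i, fun _ => rfl⟩

theorem ET.add {α : Type} {f g : (α → ℤ) → ℤ} (hf : ET f) (hg : ET g) :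
    ET (fun v => f v + g v) := by
  obtain ⟨F, hF, e⟩ := hf
  obtain ⟨F', hF', e'⟩ := hg
  exact ⟨_, GT.mul hF hF', fun v => by
    change gt ^ (f v + g v) = _
    rw [zpow_add, e, e']⟩

theorem ET.smul {α : Type} {f : (α → ℤ) → ℤ} (n : ℤ) (hf : ET f) :
    ET (fun v => n * f v) := by
  obtain ⟨F, hF, e⟩ := hf
  exact ⟨_, GT.zpow hF n, fun v => by
    change gt ^ (n * f v) = _
    rw [mul_comm, zpow_mul, e]⟩

theorem ET.const {α : Type} (n : ℤ) : ET (fun _ : α → ℤ => n) :=
  ⟨_, GT.zpow GT.gt n, fun _ => rfl⟩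

theorem ET.congr {α : Type} {f g : (α → ℤ) → ℤ} (hf : ET f) (h : ∀ v, g v = f v) : ET g := by
  have : g = f := funext h
  rw [this]; exact hf

theorem ET.sub {α : Type} {f g : (α → ℤ) → ℤ} (hf : ET f) (hg : ET g) :
    ET (fun v => f v - g v) :=
  (ET.add hf (ET.smul (-1) hg)).congr fun v => by ring

theorem ED.subst {α γ : Type} {S : (γ → ℤ) → Prop} (h : ED S) {F : γ → (α → ℤ) → ℤ}
    (hF : ∀ c, ET (F c)) : ED (fun v : α → ℤ => S (fun c => F c v)) := by
  obtain ⟨Z, i, hZ⟩ := h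
  choose w hw hw' using hF
  refine ⟨_, i.subst hw, fun v => ?_⟩
  change S (fun c => F c v) ↔ _
  rw [hZ]
  have : pw (fun c => F c v) = fun c => w c (pw v) := by
    funext c
    exact hw' c v
  rw [this]

theorem ED.eq {α : Type} {f g : (α → ℤ) → ℤ} (hf : ET f) (hg : ET g) :
    ED (fun v => f v = g v) := by
  obtain ⟨F, hF, e⟩ := hf
  obtain ⟨F', hF', e'⟩ := hg
  refine ⟨_, GD.eq hF hF', fun v => ?_⟩
  rw [← e, ← e']
  constructor
  · intro h; rw [h]
  · intro h
    have := congrArg (fun g => (rho g).m) h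
    simpa [rho_gt_zpow] using this

/-- binary relations -/
theorem ED.pred2 {α : Type} {R : ℤ → ℤ → Prop} (h : ED (fun v : Fin 2 → ℤ => R (v 0) (v 1)))
    {f g : (α → ℤ) → ℤ} (hf : ET f) (hg : ET g) : ED (fun v => R (f v) (g v)) := by
  have := h.subst (α := α) (F := ![f, g]) (by
    intro c
    fin_cases c
    · exact hf
    · exact hg)
  exact this

theorem ED.pred3 {α : Type} {R : ℤ → ℤ → ℤ → Prop}
    (h : ED (fun v : Fin 3 → ℤ => R (v 0) (v 1) (v 2)))
    {f g k : (α → ℤ) → ℤ} (hf : ET f) (hg : ET g) (hk : ET k) :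
    ED (fun v => R (f v) (g v) (k v)) := by
  have := h.subst (α := α) (F := ![f, g, k]) (by
    intro c
    fin_cases c
    · exact hf
    · exact hg
    · exact hk)
  exact this

end Pool.Agent.H395R6
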