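import Mathlib
import Pool.Agent.H395R6.BA2

/-!
Integer predicates: squares from divisibility and the certificate.
-/

set_option autoImplicit false

namespace Pool.Agent.H395R6

open Pool.Agent.H395R5

/-- powers of sixteen -/
def P2 (Q : ℤ) : Prop := 2 ∣ Q ∧ 15 ∣ Q - 1 ∧ CG 1 Q

theorem two_pow_mod (s : ℕ) : (2 ^ s) % 15 = 2 ^ (s % 4) % 15 := by
  conv_lhs => rw [← Nat.div_add_mod s 4, pow_add, pow_mul, Nat.mul_mod, Nat.pow_mod]
  norm_num

theorem p2_iff (Q : ℤ) : P2 Q ↔ ∃ j : ℕ, Q = 2 ^ (4 * (j + 1)) := by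
  constructor
  · rintro ⟨h2, h15, hc⟩
    have hQ : Q ≠ 0 := by rintro rfl; norm_num at h15
    obtain ⟨s, hs⟩ := pow_two_of_odd Q.natAbs (Int.natAbs_pos.2 hQ) (fun d h1 h3 h4 =>
      cg_sound 1 Q hQ hc d h1 h3 (Int.natCast_dvd.2 h4) isCoprime_one_right)
    have hm := two_pow_mod s
    have h4 : s % 4 < 4 := Nat.mod_lt _ (by norm_num)
    have hs' : s % 4 = 0 ∧ Q = 2 ^ s := by
      rcases Int.natAbs_eq Q with h | h
      · rw [hs] at h
        push_cast at h
        refine ⟨?_, h⟩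
        have : ((2 ^ s : ℕ) : ℤ) = Q := by rw [h]; push_cast; rfl
        interval_cases hh : s % 4 <;> norm_num at hm <;> omega
      · exfalso
        rw [hs] at h
        have : ((2 ^ s : ℕ) : ℤ) = -Q := by rw [h]; push_cast; ring
        interval_cases hh : s % 4 <;> norm_num at hm <;> omega
    obtain ⟨h5, h6⟩ := hs'
    have h7 : s ≠ 0 := by
      rintro rfl
      rw [h6] at h2
      norm_num at h2
    refine ⟨s / 4 - 1, ?_⟩
    rw [h6]
    congr 1
    omega
  · rintro ⟨j, rfl⟩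
    refine ⟨?_, ?_, ?_⟩
    · exact dvd_pow_self 2 (by omega)
    · have := sub_dvd_pow_sub_pow ((2 : ℤ) ^ 4) 1 (j + 1)
      rw [← pow_mul, one_pow] at this
      norm_num at this ⊢
      exact this
    · have := cg_complete 1 le_rfl (4 * j + 3)
      rw [one_mul] at this
      have e : 4 * (j + 1) = 4 * j + 3 + 1 := by ring
      rw [e]
      exact_mod_cast this

/-- the key step, with an abstract certificate -/
theorem sq_sound (s r : ℕ) (hs : 2 ≤ s)
    (hd : 2 ^ s + 1 ∣ 2 ^ s * 2 ^ r + 2 ^ s)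
    (hc : ∀ d : ℕ, 1 < d → Odd d → d ∣ 2 ^ s * 2 ^ r + 2 ^ s → Nat.Coprime d (2 ^ s + 1) →
      False) : r = s := by
  set Q := 2 ^ s with hQ
  have hQ4 : 4 ≤ Q := by
    have : 2 ^ 2 ≤ 2 ^ s := Nat.pow_le_pow_right (by norm_num) hs
    simpa using this
  have hoQ : Odd (Q + 1) := by
    have : Even Q := by
      rw [hQ]; exact (Nat.even_pow.2 ⟨by decide, by omega⟩)
    exact this.add_one
  have hcop : Nat.Coprime (Q + 1) Q := by simp
  have e1 : Q * 2 ^ r + Q = Q * (2 ^ r + 1) := by ring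
  rw [e1] at hd hc
  have hd' : Q + 1 ∣ 2 ^ r + 1 := hcop.dvd_of_dvd_mul_left hd
  obtain ⟨u, hu, hru⟩ := exists_odd_mul s r hs hd'
  rcases Nat.lt_or_ge u 2 with h2 | h2
  · obtain ⟨k, hk⟩ := hu
    have : u = 1 := by omega
    rw [hru, this, mul_one]
  · exfalso
    have hu3 : 3 ≤ u := by
      obtain ⟨k, hk⟩ := hu
      omega
    have e2 : 2 ^ r = Q ^ u := by rw [hru, pow_mul]
    rw [e2] at hc
    have hdvd : Q ^ u + 1 ∣ (Q + 1) * u := by
      rw [← Nat.factorization_prime_le_iff_dvd (by positivity)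
        (Nat.mul_ne_zero (by omega) (by omega))]
      intro p hp
      have : Fact p.Prime := ⟨hp⟩
      by_cases hpd : p ∣ Q ^ u + 1
      · have hpo : Odd p := by
          rcases hp.eq_two_or_odd' with h | h
          · exfalso
            subst h
            have hev : Even (Q ^ u) := by
              rw [hQ, ← pow_mul]
              exact Nat.even_pow.2 ⟨by decide, Nat.mul_ne_zero (by omega) (by omega)⟩
            have := hev.add_one
            rw [← Nat.not_even_iff_odd] at this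
            exact this (even_iff_two_dvd.2 hpd)
          · exact h
        have hpQ : p ∣ Q + 1 := by
          by_contra hn
          exact hc p hp.one_lt hpo (Dvd.dvd.mul_left hpd Q)
            ((Nat.Prime.coprime_iff_not_dvd hp).2 hn)
        have hpnQ : ¬ p ∣ Q := by
          intro h
          have h1 : p ∣ Nat.gcd (Q + 1) Q := Nat.dvd_gcd hpQ h
          rw [hcop] at h1
          exact hp.one_lt.ne' (Nat.dvd_one.1 h1)
        have lte := padicValNat.pow_add_pow hpo hpQ hpnQ hu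
        rw [one_pow] at lte
        rw [Nat.factorization_def _ hp, Nat.factorization_def _ hp, lte,
          padicValNat.mul (by omega) (by omega)]
      · rw [Nat.factorization_eq_zero_of_not_dvd hpd]
        exact Nat.zero_le _
    have hle := Nat.le_of_dvd (Nat.mul_pos (by omega) (by omega)) hdvd
    obtain ⟨w, rfl⟩ : ∃ w, u = w + 1 := ⟨u - 1, by omega⟩
    have h4 : 2 * (w + 1) ≤ 4 ^ w := by
      have : ∀ n, 2 ≤ n → 2 * (n + 1) ≤ 4 ^ n := by
        intro n hn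
        induction n, hn using Nat.le_induction with
        | base => norm_num
        | succ n hn ih => rw [pow_succ]; omega
      exact this w (by omega)
    have h5 : 4 ^ w ≤ Q ^ w := Nat.pow_le_pow_left hQ4 w
    rw [pow_succ] at hle
    nlinarith

/-- squares of powers of sixteen -/
def SqQ (Q R : ℤ) : Prop :=
  P2 Q ∧ P2 R ∧ Q ∣ R ∧ Q + 1 ∣ R + Q ∧ CG (Q + 1) (R + Q)

theorem sqQ_iff (Q R : ℤ) : SqQ Q R ↔ ∃ j : ℕ, Q = 2 ^ (4 * (j + 1)) ∧ R = Q * Q := by
  constructor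
  · rintro ⟨h1, h2, h3, h4, h5⟩
    obtain ⟨j, hj⟩ := (p2_iff Q).1 h1
    obtain ⟨k, hk⟩ := (p2_iff R).1 h2
    refine ⟨j, hj, ?_⟩
    have hle : 4 * (j + 1) ≤ 4 * (k + 1) := by
      by_contra hc
      push Not at hc
      have : (2 : ℤ) ^ (4 * (k + 1)) < 2 ^ (4 * (j + 1)) := pow_lt_pow_right₀ (by norm_num) hc
      have h6 := Int.le_of_dvd (by rw [hk]; positivity) h3
      rw [hj, hk] at h6
      linarith
    set s := 4 * (j + 1) with hs
    obtain ⟨r, hr⟩ : ∃ r, 4 * (k + 1) = s + r := ⟨4 * (k + 1) - s, by omega⟩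
    rw [hr, pow_add] at hk
    have e0 : ((2 ^ s + 1 : ℕ) : ℤ) = Q + 1 := by rw [hj]; push_cast; ring
    have e1 : ((2 ^ s * 2 ^ r + 2 ^ s : ℕ) : ℤ) = R + Q := by rw [hj, hk]; push_cast; ring
    have hpos : R + Q ≠ 0 := by
      rw [hj, hk]; positivity
    have := sq_sound s r (by omega) (by
      rw [← e0, ← e1] at h4
      exact_mod_cast h4) (by
      intro d hd ho hdv hcop
      refine cg_sound (Q + 1) (R + Q) hpos h5 d hd ho ?_ ?_
      · rw [← e1]
        exact_mod_cast hdv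
      · rw [← e0]
        exact Nat.isCoprime_iff_coprime.2 hcop)
    rw [hk, this, hj]
  · rintro ⟨j, hj, hR⟩
    refine ⟨(p2_iff Q).2 ⟨j, hj⟩, (p2_iff R).2 ⟨2 * j + 1, ?_⟩, ?_, ?_, ?_⟩
    · rw [hR, hj, ← pow_add]
      congr 1
      ring
    · rw [hR]; exact Dvd.intro _ rfl
    · rw [hR]
      exact ⟨Q, by ring⟩
    · have := cg_complete (2 ^ (4 * (j + 1)) + 1) (Nat.le_add_left 1 _) (4 * j + 3)
      have e1 : (((2 ^ (4 * (j + 1)) + 1) * 2 ^ (4 * j + 3 + 1) : ℕ) : ℤ) = R + Q := by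
        rw [hR, hj]
        have : 4 * (j + 1) = 4 * j + 3 + 1 := by ring
        rw [this]
        push_cast
        ring
      have e2 : ((2 ^ (4 * (j + 1)) + 1 : ℕ) : ℤ) = Q + 1 := by rw [hj]; push_cast; ring
      rw [e1, e2] at this
      exact this

/-- multiplication by `Q` where `Q` is large -/
def MulQ (Q x Y : ℤ) : Prop :=
  Q ∣ Y ∧ Q - 1 ∣ Y - x ∧ Q + 1 ∣ Y + x

theorem mulQ_sound (Q x Y : ℤ) (hQ : 4 ≤ Q) (h : MulQ Q x Y) (hY : |Y| ≤ Q * (Q - 1))
    (hx : |x| ≤ Q - 1) : Y = Q * x := by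
  obtain ⟨h1, h2, h3⟩ := h
  have d1 : Q ∣ Y - Q * x := dvd_sub h1 (Dvd.intro _ rfl)
  have d2 : Q + 1 ∣ Y - Q * x := by
    have : Y - Q * x = (Y + x) - (Q + 1) * x := by ring
    rw [this]; exact dvd_sub h3 (Dvd.intro _ rfl)
  have d3 : Q - 1 ∣ Y - Q * x := by
    have : Y - Q * x = (Y - x) - (Q - 1) * x := by ring
    rw [this]; exact dvd_sub h2 (Dvd.intro _ rfl)
  have c1 : IsCoprime Q (Q + 1) := ⟨-1, 1, by ring⟩
  obtain ⟨k, hk⟩ := c1.mul_dvd d1 d2
  have c2 : IsCoprime (Q - 1) Q := ⟨-1, 1, by ring⟩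
  have d4 : Q - 1 ∣ (Q + 1) * k := by
    have : Q - 1 ∣ Q * ((Q + 1) * k) := by
      rw [hk] at d3
      convert d3 using 1
      ring
    exact c2.dvd_of_dvd_mul_left this
  have d5 : Q - 1 ∣ 2 * k := by
    have : 2 * k = (Q + 1) * k - (Q - 1) * k := by ring
    rw [this]; exact dvd_sub d4 (Dvd.intro _ rfl)
  rw [abs_le] at hY hx
  have b0 : Q * x ≤ Q * (Q - 1) := mul_le_mul_of_nonneg_left hx.2 (by linarith)
  have b1 : Q * (-(Q - 1)) ≤ Q * x := mul_le_mul_of_nonneg_left hx.1 (by linarith)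
  have b2 : k < 2 := by
    by_contra hc
    have : Q * (Q + 1) * 2 ≤ Q * (Q + 1) * k := by
      apply mul_le_mul_of_nonneg_left (by linarith) (by positivity)
    nlinarith
  have b3 : -2 < k := by
    by_contra hc
    have : Q * (Q + 1) * k ≤ Q * (Q + 1) * (-2) := by
      apply mul_le_mul_of_nonneg_left (by linarith) (by positivity)
    nlinarith
  have hk0 : 2 * k = 0 := by
    apply Int.eq_zero_of_abs_lt_dvd d5
    rw [abs_lt]
    constructor <;> linarith
  have : k = 0 := by linarith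
  rw [this] at hk
  linarith

theorem mulQ_complete (Q x : ℤ) : MulQ Q x (Q * x) :=
  ⟨Dvd.intro _ rfl, ⟨x, by ring⟩, ⟨x, by ring⟩⟩

/-- squares of odd numbers, in terms of divisibility and `SqQ` -/
def OSq (x y : ℤ) : Prop := ∃ t : Fin 4 → ℤ,
  -- Q = t 0, Q2 = t 1, Q4 = t 2, Y = t 3
  SqQ (t 0) (t 1) ∧ SqQ (t 1) (t 2) ∧ x ∣ t 0 - 1 ∧ (t 1 ∣ t 3 ∧ t 1 - 1 ∣ t 3 - x ∧
    t 1 + 1 ∣ t 3 + x) ∧ t 3 ∣ t 2 - t 1 ∧ y ∣ t 1 - 2 * t 0 + 1 ∧
    x + 2 * t 1 ∣ y + 4 * t 3 + 4 * t 2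

theorem osq_iff (x y : ℤ) (hx : Odd x) : OSq x y ↔ y = x * x := by
  constructor
  · rintro ⟨t, h1, h2, h3, h4, h5, h6, h7⟩
    obtain ⟨j, hj, e1⟩ := (sqQ_iff _ _).1 h1
    obtain ⟨_, _, e2⟩ := (sqQ_iff _ _).1 h2
    set Q := t 0 with hQ
    have hQ16 : 16 ≤ Q := by
      rw [hj]
      have : (2 : ℤ) ^ 4 ≤ 2 ^ (4 * (j + 1)) := pow_le_pow_right₀ (by norm_num) (by omega)
      norm_num at this ⊢
      exact this
    rw [e2, e1] at h5 h7
    rw [e1] at h4 h6
    have hxQ : |x| ≤ Q - 1 := by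
      have := Int.le_of_dvd (by linarith) ((abs_dvd _ _).2 h3)
      exact this
    have hQQ : 256 ≤ Q * Q := by nlinarith
    have hY : |t 3| ≤ (Q * Q) * (Q * Q - 1) := by
      have e : (Q * Q) * (Q * Q - 1) = Q * Q * (Q * Q) - Q * Q := by ring
      rw [e]
      exact Int.le_of_dvd (by nlinarith) ((abs_dvd _ _).2 h5)
    have hxQ2 : |x| ≤ Q * Q - 1 := by nlinarith
    have h8 := mulQ_sound (Q * Q) x (t 3) (by linarith) h4 hY hxQ2
    rw [h8] at h7
    have d1 : x + 2 * (Q * Q) ∣ y - x * x := by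
      have : y - x * x = (y + 4 * (Q * Q * x) + 4 * (Q * Q * (Q * Q))) -
        (x + 2 * (Q * Q)) * (x + 2 * (Q * Q)) := by ring
      rw [this]
      exact dvd_sub h7 (Dvd.intro _ rfl)
    have hy : |y| ≤ (Q - 1) * (Q - 1) := by
      have e : (Q - 1) * (Q - 1) = Q * Q - 2 * Q + 1 := by ring
      have hpos : 0 < Q * Q - 2 * Q + 1 := by nlinarith
      rw [e]
      exact Int.le_of_dvd hpos ((abs_dvd _ _).2 h6)
    have hxx : x * x ≤ (Q - 1) * (Q - 1) := by
      rw [← abs_mul_abs_self x]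
      exact mul_le_mul hxQ hxQ (abs_nonneg _) (by linarith)
    have hxx0 : 0 ≤ x * x := mul_self_nonneg x
    rw [abs_le] at hy hxQ
    have : y - x * x = 0 := by
      apply Int.eq_zero_of_abs_lt_dvd d1
      rw [abs_lt]
      constructor <;> nlinarith
    linarith
  · rintro rfl
    -- choose Q
    obtain ⟨j, hj⟩ : ∃ j : ℕ, x ∣ 2 ^ (4 * (j + 1)) - 1 := by
      refine ⟨Nat.totient x.natAbs - 1, ?_⟩
      have hx0 : x ≠ 0 := by
        rintro rfl
        exact absurd hx (by decide)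
      have hp : 0 < Nat.totient x.natAbs := Nat.totient_pos.2 (Int.natAbs_pos.2 hx0)
      have e : Nat.totient x.natAbs - 1 + 1 = Nat.totient x.natAbs := by omega
      rw [e]
      have hc : Nat.Coprime 16 x.natAbs := by
        have h2 : Nat.Coprime 2 x.natAbs := by
          rw [Nat.coprime_two_left]
          exact Int.natAbs_odd.2 hx
        have : (16 : ℕ) = 2 ^ 4 := by norm_num
        rw [this]
        exact Nat.Coprime.pow_left 4 h2
      have h1 := Nat.ModEq.pow_totient hc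
      have h2 : ((x.natAbs : ℕ) : ℤ) ∣ ((16 ^ Nat.totient x.natAbs : ℕ) : ℤ) - ((1 : ℕ) : ℤ) := by
        exact (Nat.modEq_iff_dvd.1 h1.symm)
      rw [Int.natAbs_dvd] at h2
      push_cast at h2
      rw [pow_mul]
      norm_num at h2 ⊢
      exact h2
    set Q : ℤ := 2 ^ (4 * (j + 1)) with hQ
    refine ⟨![Q, Q * Q, Q * Q * (Q * Q), Q * Q * x], ?_, ?_, ?_, ?_, ?_, ?_, ?_⟩
    · change SqQ Q (Q * Q)
      exact (sqQ_iff _ _).2 ⟨j, hQ, rfl⟩
    · change SqQ (Q * Q) (Q * Q * (Q * Q))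
      refine (sqQ_iff _ _).2 ⟨2 * j + 1, ?_, rfl⟩
      rw [hQ, ← pow_add]
      congr 1
      ring
    · exact hj
    · exact mulQ_complete (Q * Q) x
    · change Q * Q * x ∣ Q * Q * (Q * Q) - Q * Q
      have : Q * Q * (Q * Q) - Q * Q = Q * Q * (Q * Q - 1) := by ring
      rw [this]
      apply mul_dvd_mul_left
      have : Q * Q - 1 = (Q - 1) * (Q + 1) := by ring
      rw [this]
      exact Dvd.dvd.mul_right hj _
    · change x * x ∣ Q * Q - 2 * Q + 1
      have : Q * Q - 2 * Q + 1 = (Q - 1) * (Q - 1) := by ring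
      rw [this]
      exact mul_dvd_mul hj hj
    · change x + 2 * (Q * Q) ∣ x * x + 4 * (Q * Q * x) + 4 * (Q * Q * (Q * Q))
      exact ⟨x + 2 * (Q * Q), by ring⟩

theorem sq_iff (x y : ℤ) : OSq (2 * x + 1) (4 * y + 4 * x + 1) ↔ y = x * x := by
  rw [osq_iff _ _ ⟨x, rfl⟩]
  constructor
  · intro h
    have : 4 * y = 4 * (x * x) := by linear_combination h
    linarith
  · rintro rfl
    ring

end Pool.Agent.H395R6
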