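import Mathlib
import Pool.Agent.H395R6.BA3
import Pool.Agent.H395R6.BA4

/-!
Divisibility, the certificate, squares and products of exponents are definable in `BS(1,2)`.
-/

set_option autoImplicit false

namespace Pool.Agent.H395R6

/-- the element of the normal subgroup with the given value -/
def HasX (g : G) (q : ℚ) : Prop := rho g = ⟨q, 0⟩

theorem hx_mul {g h : G} {q r : ℚ} (hg : HasX g q) (hh : HasX h r) : HasX (g * h) (q + r) := by
  unfold HasX at *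
  rw [map_mul, hg, hh]
  ext <;> simp

theorem hx_inv {g : G} {q : ℚ} (hg : HasX g q) : HasX g⁻¹ (-q) := by
  unfold HasX at *
  rw [map_inv, hg]
  ext <;> simp

/-- conjugation -/
def cj (T g : G) : G := T * g * T⁻¹

theorem hx_cj {g T : G} {q : ℚ} {y : ℤ} (hT : T = gt ^ y) (hg : HasX g q) :
    HasX (cj T g) (2 ^ y * q) := by
  unfold HasX cj at *
  rw [map_mul, map_mul, map_inv, hg, hT, rho_gt_zpow]
  ext <;> simp

theorem hx_ga : HasX ga 1 := rho_ga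

theorem hx_eq {g h : G} {q r : ℚ} (hg : HasX g q) (hh : HasX h r) : g = h ↔ q = r := by
  unfold HasX at *
  constructor
  · intro e
    rw [e, hh] at hg
    exact (congrArg Aff.x hg).symm
  · intro e
    apply rho_inj
    rw [hg, hh, e]

theorem exists_hx {q : ℚ} (hq : q ∈ D) : ∃ g, HasX g q := by
  obtain ⟨l, i, rfl⟩ := hq
  refine ⟨(gt ^ i)⁻¹ * ga ^ l * gt ^ i, ?_⟩
  unfold HasX
  rw [rho_normal]
  simp

theorem comm_of_hx {g : G} {q : ℚ} (h : HasX g q) : g * ga = ga * g := by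
  apply rho_inj
  unfold HasX at h
  rw [map_mul, map_mul, h, rho_ga]
  ext
  · simp; ring
  · simp

theorem hx_of_comm {g : G} (h : g * ga = ga * g) : ∃ q ∈ D, HasX g q := by
  have h1 := congrArg (fun g => (rho g).x) h
  simp only [map_mul, rho_ga, Aff.mul_x, mul_one, zpow_zero, one_mul] at h1
  have h2 : (2 : ℚ) ^ (rho g).m = 2 ^ (0 : ℤ) := by rw [zpow_zero]; linarith
  have h3 : (rho g).m = 0 := zpow_right_injective₀ (by norm_num) (by norm_num) h2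
  obtain ⟨i, j, l, e⟩ := normal_form g
  refine ⟨(rho g).x, ⟨l, i, ?_⟩, ?_⟩
  · rw [e, rho_normal]
  · unfold HasX
    ext
    · rfl
    · exact h3

theorem GT.cj {α : Type} {f g : (α → G) → G} (hf : GT f) (hg : GT g) :
    GT (fun v => H395R6.cj (f v) (g v)) :=
  GT.mul (GT.mul hf hg) (GT.inv hf)

/-- divisibility is definable -/
theorem ed_dvd : ED (fun v : Fin 2 → ℤ => v 0 ∣ v 1) := by
  refine ⟨fun v => ∃ t : Unit → G, t () * ga = ga * t () ∧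
    cj (v 0) (t ()) * (t ())⁻¹ = cj (v 1) ga * ga⁻¹, ?_, fun v => ?_⟩
  · have h1 : GD (fun w : Fin 2 ⊕ Unit → G => w (Sum.inr ()) * ga = ga * w (Sum.inr ())) :=
      GD.eq (GT.mul (GT.var _) GT.ga) (GT.mul GT.ga (GT.var _))
    have h2 : GD (fun w : Fin 2 ⊕ Unit → G => cj (w (Sum.inl 0)) (w (Sum.inr ())) *
        (w (Sum.inr ()))⁻¹ = cj (w (Sum.inl 1)) ga * ga⁻¹) :=
      GD.eq (GT.mul (GT.cj (GT.var _) (GT.var _)) (GT.inv (GT.var _)))
        (GT.mul (GT.cj (GT.var _) GT.ga) (GT.inv GT.ga))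
    exact GD.exs (h1.and h2)
  · change v 0 ∣ v 1 ↔ _
    rw [← dvdD]
    constructor
    · rintro ⟨A, hA, h⟩
      obtain ⟨g, hg⟩ := exists_hx hA
      refine ⟨fun _ => g, comm_of_hx hg, ?_⟩
      refine (hx_eq (hx_mul (hx_cj rfl hg) (hx_inv hg))
        (hx_mul (hx_cj rfl hx_ga) (hx_inv hx_ga))).2 ?_
      linarith
    · rintro ⟨t, h1, h2⟩
      obtain ⟨q, hq, hg⟩ := hx_of_comm h1
      refine ⟨q, hq, ?_⟩
      have := (hx_eq (hx_mul (hx_cj rfl hg) (hx_inv hg))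
        (hx_mul (hx_cj rfl hx_ga) (hx_inv hx_ga))).1 h2
      linarith

/-- the group equations of the gadget -/
def Gad (U Y E : G) (q : Fin 9 → G) : Prop :=
  cj Y (q 2) * (q 2)⁻¹ = cj E ga * ga⁻¹ ∧
  cj (Y * Y) (q 3) * (q 3)⁻¹ = cj (E * E) ga * ga⁻¹ ∧
  q 3 * (q 2)⁻¹ = (cj Y (q 4) * (q 4)⁻¹) * ((cj (Y * Y) (q 5) * (cj Y (q 5))⁻¹) *
    ((cj Y (q 5))⁻¹ * q 5)) ∧
  q 2 * (q 0)⁻¹ = cj Y (q 6) * (q 6)⁻¹ ∧
  q 1 * (q 4 * (q 4 * q 0))⁻¹ = cj Y (q 7) * (q 7)⁻¹ ∧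
  cj Y (q 8) * (q 8)⁻¹ = cj (U * U) (q 1 * ga) * (q 1 * ga)⁻¹

theorem gad_iff (u y e : ℤ) (g : Fin 9 → G) (q : Fin 9 → ℚ) (h : ∀ i, HasX (g i) (q i)) :
    Gad (gt ^ u) (gt ^ y) (gt ^ e) g ↔
  (2 ^ y * q 2 + -q 2 = 2 ^ e * 1 + -1 ∧
  2 ^ (y + y) * q 3 + -q 3 = 2 ^ (e + e) * 1 + -1 ∧
  q 3 + -q 2 = (2 ^ y * q 4 + -q 4) + ((2 ^ (y + y) * q 5 + -(2 ^ y * q 5)) +
    (-(2 ^ y * q 5) + q 5)) ∧
  q 2 + -q 0 = 2 ^ y * q 6 + -q 6 ∧
  q 1 + -(q 4 + (q 4 + q 0)) = 2 ^ y * q 7 + -q 7 ∧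
  2 ^ y * q 8 + -q 8 = 2 ^ (u + u) * (q 1 + 1) + -(q 1 + 1)) := by
  have hy : ∀ y : ℤ, gt ^ y * gt ^ y = gt ^ (y + y) := fun y => (zpow_add gt y y).symm
  unfold Gad
  refine and_congr (hx_eq ?_ ?_) (and_congr (hx_eq ?_ ?_) (and_congr (hx_eq ?_ ?_)
    (and_congr (hx_eq ?_ ?_) (and_congr (hx_eq ?_ ?_) (hx_eq ?_ ?_)))))
  all_goals
    repeat' first
      | exact h _
      | exact hx_ga
      | exact rfl
      | exact hy _
      | apply hx_mul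
      | apply hx_inv
      | apply hx_cj

/-- the gadget is definable -/
theorem ed_cg : ED (fun v : Fin 2 → ℤ => CG (v 0) (v 1)) := by
  refine ⟨fun v => ∃ t : Fin 10 → G, (t 9 * gt = gt * t 9 ∧ ∀ i : Fin 9,
    t i.castSucc * ga = ga * t i.castSucc) ∧ Gad (v 0) (v 1) (t 9) (fun i => t i.castSucc),
    ?_, fun v => ?_⟩
  · have h1 : GD (fun w : Fin 2 ⊕ Fin 10 → G => w (Sum.inr 9) * gt = gt * w (Sum.inr 9)) :=
      GD.eq (GT.mul (GT.var _) GT.gt) (GT.mul GT.gt (GT.var _))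
    have h2 : GD (fun w : Fin 2 ⊕ Fin 10 → G => ∀ i : Fin 9,
        w (Sum.inr i.castSucc) * ga = ga * w (Sum.inr i.castSucc)) :=
      GD.all fun i => GD.eq (GT.mul (GT.var _) GT.ga) (GT.mul GT.ga (GT.var _))
    have h3 : GD (fun w : Fin 2 ⊕ Fin 10 → G => Gad (w (Sum.inl 0)) (w (Sum.inl 1))
        (w (Sum.inr 9)) (fun i => w (Sum.inr i.castSucc))) := by
      unfold Gad
      refine GD.and (GD.eq ?_ ?_) (GD.and (GD.eq ?_ ?_) (GD.and (GD.eq ?_ ?_)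
        (GD.and (GD.eq ?_ ?_) (GD.and (GD.eq ?_ ?_) (GD.eq ?_ ?_)))))
      all_goals
        repeat' first
          | exact GT.var _
          | exact GT.ga
          | apply GT.cj
          | apply GT.mul
          | apply GT.inv
    exact GD.exs ((h1.and h2).and h3)
  · constructor
    · rintro ⟨e, q, hq, h⟩
      have : ∀ i, ∃ g, HasX g (q i) := fun i => exists_hx (hq i)
      choose g hg using this
      let t : Fin 10 → G := Fin.snoc (α := fun _ => G) g (gt ^ e)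
      have t9 : t 9 = gt ^ e := Fin.snoc_last (α := fun _ => G) _ _
      have ti : ∀ i : Fin 9, t i.castSucc = g i := fun i => Fin.snoc_castSucc (α := fun _ => G) _ _ _
      refine ⟨t, ⟨?_, ?_⟩, ?_⟩
      · rw [t9]
        exact (comm_gt _).2 ⟨e, rfl⟩
      · intro i
        rw [ti]
        exact comm_of_hx (hg i)
      · rw [t9]
        have : (fun i : Fin 9 => t i.castSucc) = g := funext ti
        rw [this]
        exact (gad_iff _ _ _ _ _ hg).2 h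
    · rintro ⟨t, ⟨h1, h2⟩, h3⟩
      obtain ⟨e, he⟩ := (comm_gt _).1 h1
      have : ∀ i : Fin 9, ∃ q ∈ D, HasX (t i.castSucc) q := fun i => hx_of_comm (h2 i)
      choose q hq hg using this
      refine ⟨e, q, hq, ?_⟩
      rw [he] at h3
      exact (gad_iff _ _ _ _ _ hg).1 h3

theorem ED.dvd {α : Type} {f g : (α → ℤ) → ℤ} (hf : ET f) (hg : ET g) :
    ED (fun v => f v ∣ g v) := ED.pred2 ed_dvd hf hg

theorem ED.cg {α : Type} {f g : (α → ℤ) → ℤ} (hf : ET f) (hg : ET g) :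
    ED (fun v => CG (f v) (g v)) := ED.pred2 ed_cg hf hg

theorem ED.p2 {α : Type} {f : (α → ℤ) → ℤ} (hf : ET f) : ED (fun v => P2 (f v)) :=
  (ED.dvd (ET.const 2) hf).and ((ED.dvd (ET.const 15) (hf.sub (ET.const 1))).and
    (ED.cg (ET.const 1) hf))

theorem ED.sqQ {α : Type} {f g : (α → ℤ) → ℤ} (hf : ET f) (hg : ET g) :
    ED (fun v => SqQ (f v) (g v)) :=
  (ED.p2 hf).and ((ED.p2 hg).and ((ED.dvd hf hg).and ((ED.dvd (hf.add (ET.const 1))
    (hg.add hf)).and (ED.cg (hf.add (ET.const 1)) (hg.add hf)))))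

theorem ed_osq : ED (fun v : Fin 2 → ℤ => OSq (v 0) (v 1)) := by
  have x : ET (fun w : Fin 2 ⊕ Fin 4 → ℤ => w (Sum.inl 0)) := ET.var _
  have y : ET (fun w : Fin 2 ⊕ Fin 4 → ℤ => w (Sum.inl 1)) := ET.var _
  have t0 : ET (fun w : Fin 2 ⊕ Fin 4 → ℤ => w (Sum.inr 0)) := ET.var _
  have t1 : ET (fun w : Fin 2 ⊕ Fin 4 → ℤ => w (Sum.inr 1)) := ET.var _
  have t2 : ET (fun w : Fin 2 ⊕ Fin 4 → ℤ => w (Sum.inr 2)) := ET.var _
  have t3 : ET (fun w : Fin 2 ⊕ Fin 4 → ℤ => w (Sum.inr 3)) := ET.var _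
  have c1 : ET (fun _ : Fin 2 ⊕ Fin 4 → ℤ => 1) := ET.const 1
  exact ED.exs ((ED.sqQ t0 t1).and ((ED.sqQ t1 t2).and ((ED.dvd x (t0.sub c1)).and
    (((ED.dvd t1 t3).and ((ED.dvd (t1.sub c1) (t3.sub x)).and
      (ED.dvd (t1.add c1) (t3.add x)))).and
    ((ED.dvd t3 (t2.sub t1)).and ((ED.dvd y ((t1.sub (t0.smul 2)).add c1)).and
    (ED.dvd (x.add (t1.smul 2)) ((y.add (t3.smul 4)).add (t2.smul 4)))))))))

theorem ED.sq {α : Type} {f g : (α → ℤ) → ℤ} (hf : ET f) (hg : ET g) :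
    ED (fun v => g v = f v * f v) := by
  refine (ED.pred2 ed_osq ((hf.smul 2).add (ET.const 1))
    (((hg.smul 4).add (hf.smul 4)).add (ET.const 1))).congr fun v => ?_
  rw [sq_iff]

theorem ed_mul : ED (fun v : Fin 3 → ℤ => v 2 = v 0 * v 1) := by
  have x : ET (fun w : Fin 3 ⊕ Fin 2 → ℤ => w (Sum.inl 0)) := ET.var _
  have y : ET (fun w : Fin 3 ⊕ Fin 2 → ℤ => w (Sum.inl 1)) := ET.var _
  have z : ET (fun w : Fin 3 ⊕ Fin 2 → ℤ => w (Sum.inl 2)) := ET.var _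
  have p : ET (fun w : Fin 3 ⊕ Fin 2 → ℤ => w (Sum.inr 0)) := ET.var _
  have q : ET (fun w : Fin 3 ⊕ Fin 2 → ℤ => w (Sum.inr 1)) := ET.var _
  refine (ED.exs ((ED.sq x p).and ((ED.sq y q).and
    (ED.sq (x.add y) ((p.add q).add (z.smul 2)))))).congr fun v => ?_
  constructor
  · intro h
    refine ⟨![v 0 * v 0, v 1 * v 1], rfl, rfl, ?_⟩
    change v 0 * v 0 + v 1 * v 1 + 2 * v 2 = (v 0 + v 1) * (v 0 + v 1)
    rw [h]; ring
  · rintro ⟨t, h1, h2, h3⟩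
    change t 0 = v 0 * v 0 at h1
    change t 1 = v 1 * v 1 at h2
    change t 0 + t 1 + 2 * v 2 = (v 0 + v 1) * (v 0 + v 1) at h3
    rw [h1, h2] at h3
    have : 2 * v 2 = 2 * (v 0 * v 1) := by linear_combination h3
    linarith

end Pool.Agent.H395R6
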